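import Mathlib

open Polynomial

namespace Pool.Agent.Results.MP_66748c_al.NonHolonomicExtension

universe u

section Defs

variable (k : Type u) [Field k]

/-- The ring of `k`-linear differential operators on `k[x]`, as the subalgebra of `End_k k[x]`
generated by the multiplication maps and the divided powers `D_t` (Hasse derivatives). -/
noncomputable def Diff : Subalgebra k (Module.End k k[X]) :=
  Algebra.adjoin k (Set.range (fun f : k[X] => Algebra.lmul k k[X] f) ∪
    Set.range (fun t : ℕ => (hasseDeriv t : Module.End k k[X])))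

/-- The ring `Diff k` as a type. -/
def D : Type u := ↥(Diff k)

noncomputable instance : Ring (D k) := inferInstanceAs (Ring (Diff k))
noncomputable instance : Algebra k (D k) := inferInstanceAs (Algebra k (Diff k))
noncomputable instance : Module (D k) k[X] := inferInstanceAs (Module (Diff k) k[X])
instance : IsScalarTower k (D k) k[X] := inferInstanceAs (IsScalarTower k (Diff k) k[X])

variable {k}

lemma lmul_mem (f : k[X]) : Algebra.lmul k k[X] f ∈ Diff k :=
  Algebra.subset_adjoin (Or.inl ⟨f, rfl⟩)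

lemma hasse_mem (t : ℕ) : (hasseDeriv t : Module.End k k[X]) ∈ Diff k :=
  Algebra.subset_adjoin (Or.inr ⟨t, rfl⟩)

/-- An element of `Diff k` as an element of the ring `D k`. -/
def toD (P : Module.End k k[X]) (hP : P ∈ Diff k) : D k := (⟨P, hP⟩ : Diff k)

lemma toD_smul (P : Module.End k k[X]) (hP : P ∈ Diff k) (f : k[X]) : toD P hP • f = P f := rfl

variable (k)

/-- The basis product `x ^ a * D_t`. -/
noncomputable def opr (a t : ℕ) : D k :=
  toD (Algebra.lmul k k[X] (X ^ a) * (hasseDeriv t : Module.End k k[X]))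
    (mul_mem (lmul_mem _) (hasse_mem _))

lemma opr_smul (a t : ℕ) (f : k[X]) : opr k a t • f = X ^ a * hasseDeriv t f := rfl

/-- The Bernstein filtration. -/
noncomputable def Bern (s : ℕ) : Submodule k (D k) :=
  Submodule.span k {P | ∃ a t : ℕ, a + t ≤ s ∧ P = opr k a t}

/-- Holonomic modules over the ring of differential operators of `k[x]` (one variable). -/
def Holonomic (M : Type u) [AddCommGroup M] [Module k M] [Module (D k) M]
    [IsScalarTower k (D k) M] : Prop :=
  ∃ (Fil : ℕ → Submodule k M) (C : ℕ), Monotone Fil ∧ (∀ m : M, ∃ i, m ∈ Fil i) ∧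
    (∀ i j : ℕ, ∀ P ∈ Bern k i, ∀ m ∈ Fil j, P • m ∈ Fil (i + j)) ∧
    ∀ i : ℕ, 1 ≤ i → Module.rank k (Fil i) ≤ ((C * i : ℕ) : Cardinal)

end Defs

section Transport

variable {k : Type u} [Field k]

/-- A quotient of a holonomic module is holonomic. -/
lemma Holonomic.of_surjective {M N : Type u} [AddCommGroup M] [Module k M] [Module (D k) M]
    [IsScalarTower k (D k) M] [AddCommGroup N] [Module k N] [Module (D k) N]
    [IsScalarTower k (D k) N] (f : M →ₗ[D k] N) (hf : Function.Surjective f)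
    (h : Holonomic k M) : Holonomic k N := by
  obtain ⟨Fil, C, h1, h2, h3, h4⟩ := h
  refine ⟨fun i => (Fil i).map (f.restrictScalars k), C, fun i j hij => Submodule.map_mono (h1 hij),
    ?_, ?_, ?_⟩
  · intro n
    obtain ⟨m, rfl⟩ := hf n
    obtain ⟨i, hi⟩ := h2 m
    exact ⟨i, Submodule.mem_map.2 ⟨m, hi, rfl⟩⟩
  · intro i j P hP n hn
    obtain ⟨m, hm, rfl⟩ := Submodule.mem_map.1 hn
    refine Submodule.mem_map.2 ⟨P • m, h3 i j P hP m hm, ?_⟩
    simp
  · intro i hi
    exact (rank_map_le _ _).trans (h4 i hi)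

/-- The module `k[x]` is holonomic. -/
lemma holonomic_poly : Holonomic k k[X] := by
  have key : ∀ (i : ℕ) (f : k[X]), f ∈ degreeLT k (i + 1) ↔ f.natDegree ≤ i := by
    intro i f
    rw [mem_degreeLT]
    constructor
    · intro h
      by_cases hf : f = 0
      · simp [hf]
      · have := (natDegree_lt_iff_degree_lt hf).2 h
        omega
    · intro h
      by_cases hf : f = 0
      · rw [hf, degree_zero]; exact WithBot.bot_lt_coe _
      · exact (natDegree_lt_iff_degree_lt hf).1 (by omega)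
  refine ⟨fun i => degreeLT k (i + 1), 2, ?_, ?_, ?_, ?_⟩
  · intro i j hij
    exact degreeLT_mono (by omega)
  · intro f
    exact ⟨f.natDegree, (key _ _).2 le_rfl⟩
  · intro i j P hP f hf
    have hf' := (key _ _).1 hf
    induction hP using Submodule.span_induction with
    | mem P hP =>
      obtain ⟨a, t, hat, rfl⟩ := hP
      rw [key, opr_smul]
      refine natDegree_mul_le.trans ?_
      have h2 := natDegree_hasseDeriv_le f t
      have h3 : (X ^ a : k[X]).natDegree = a := natDegree_X_pow a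
      omega
    | zero => rw [zero_smul]; exact zero_mem _
    | add P Q _ _ hP hQ => rw [add_smul]; exact add_mem hP hQ
    | smul c P _ hP => rw [smul_assoc]; exact Submodule.smul_mem _ _ hP
  · intro i hi
    have h1 : Module.rank k (degreeLT k (i + 1)) = ((i + 1 : ℕ) : Cardinal) := by
      rw [(degreeLTEquiv k (i + 1)).rank_eq, rank_fun']
      simp
    rw [h1]
    exact_mod_cast (by omega : i + 1 ≤ 2 * i)

end Transport

section Ambient

variable (k : Type u) [Field k]

/-- Eventually zero sequences of polynomials. -/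
noncomputable def EvZero : Submodule (D k) (ℕ → k[X]) where
  carrier := {f | ∃ n₀, ∀ n, n₀ ≤ n → f n = 0}
  zero_mem' := ⟨0, fun _ _ => rfl⟩
  add_mem' := by
    rintro f g ⟨a, ha⟩ ⟨b, hb⟩
    refine ⟨max a b, fun n hn => ?_⟩
    rw [Pi.add_apply, ha n (le_of_max_le_left hn), hb n (le_of_max_le_right hn), add_zero]
  smul_mem' := by
    rintro P f ⟨a, ha⟩
    refine ⟨a, fun n hn => ?_⟩
    rw [Pi.smul_apply, ha n hn, smul_zero]

/-- The ambient module: sequences of polynomials modulo eventually zero ones. -/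
abbrev Amb := (ℕ → k[X]) ⧸ EvZero k

/-- The constant sequences. -/
noncomputable def cst : k[X] →ₗ[D k] Amb k where
  toFun f := Submodule.Quotient.mk (fun _ => f)
  map_add' _ _ := rfl
  map_smul' _ _ := rfl

lemma cst_injective : Function.Injective (cst k) := by
  intro f g h
  have h' : (fun _ : ℕ => f) - (fun _ : ℕ => g) ∈ EvZero k := (Submodule.Quotient.eq _).1 h
  obtain ⟨n, hn⟩ := h'
  have := hn n le_rfl
  simpa [sub_eq_zero] using this

end Ambient

section Lacunary

variable (k : Type u) [Field k] (p : ℕ)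

/-- The exponents. -/
def ex (j l : ℕ) : ℕ := p ^ (p ^ (j + 3) + l + 1) + p ^ j * (l + 1)

/-- The partial sums of the lacunary series. -/
noncomputable def ser (n : ℕ) : k[X] :=
  ∑ j ∈ Finset.range n, ∑ l ∈ Finset.range (p ^ j), X ^ ex p j l

variable {k p}
variable [hp : Fact p.Prime] [CharP k p]

include hp in
lemma hasse_pow_mul (q u : ℕ) (hu : u < p ^ q) (g : k[X]) :
    hasseDeriv u (X ^ (p ^ q) * g) = X ^ (p ^ q) * hasseDeriv u g := by
  rw [hasseDeriv_mul, Finset.sum_eq_single (0, u)]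
  · rw [hasseDeriv_zero']
  · rintro ⟨v, w⟩ hvw hne
    rw [Finset.HasAntidiagonal.mem_antidiagonal] at hvw
    simp only at hvw
    have hv : v ≠ 0 := by
      rintro rfl
      exact hne (by rw [Prod.mk.injEq]; exact ⟨rfl, by omega⟩)
    have h1 : hasseDeriv v (X ^ (p ^ q) : k[X]) = 0 := by
      rw [← monomial_one_right_eq_X_pow, hasseDeriv_monomial]
      have h2 : p ∣ (p ^ q).choose v := hp.out.dvd_choose_pow hv (by omega)
      have h3 : (((p ^ q).choose v : ℕ) : k) = 0 := (CharP.cast_eq_zero_iff k p _).2 h2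
      rw [h3, zero_mul, monomial_zero_right]
    rw [h1, zero_mul]
  · intro h
    exact absurd (Finset.HasAntidiagonal.mem_antidiagonal.2 (zero_add u)) h

include hp in
lemma hasse_pow_zero (q u : ℕ) (hu0 : u ≠ 0) (hu : u < p ^ q) (A : ℕ) :
    hasseDeriv u (X ^ (p ^ q * A) : k[X]) = 0 := by
  induction A with
  | zero => rw [mul_zero, pow_zero]; exact hasseDeriv_apply_one u (Nat.pos_of_ne_zero hu0)
  | succ A ih =>
    rw [Nat.mul_succ, add_comm, pow_add, hasse_pow_mul q u hu, ih, mul_zero]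

include hp in
lemma le_big (j : ℕ) : 2 * j + 2 ≤ p ^ (j + 3) := by
  have h1 : 2 ^ (j + 3) ≤ p ^ (j + 3) := Nat.pow_le_pow_left hp.out.two_le _
  have h2 : j + 3 < 2 ^ (j + 3) := Nat.lt_two_pow_self
  have h3 : j + 1 ≤ 2 ^ (j + 2) := by
    have : j + 2 < 2 ^ (j + 2) := Nat.lt_two_pow_self
    omega
  have h4 : 2 ^ (j + 3) = 2 * 2 ^ (j + 2) := by ring
  omega

include hp in
lemma hasse_ex_zero (j l u : ℕ) (hu0 : u ≠ 0) (hu : u < p ^ j) :
    hasseDeriv u (X ^ ex p j l : k[X]) = 0 := by
  have h1 : ex p j l = p ^ j * (p ^ (p ^ (j + 3) + l + 1 - j) + (l + 1)) := by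
    have h0 := le_big (p := p) j
    have h2 : p ^ (p ^ (j + 3) + l + 1) = p ^ j * p ^ (p ^ (j + 3) + l + 1 - j) := by
      rw [← pow_add]; congr 1; omega
    unfold ex
    rw [h2, ← mul_add]
  rw [h1]
  exact hasse_pow_zero j u hu0 hu _

include hp in
lemma hasse_ser (J u n : ℕ) (hu0 : u ≠ 0) (hu : u < p ^ J) (hn : J ≤ n) :
    hasseDeriv u (ser k p n) = hasseDeriv u (ser k p J) := by
  unfold ser
  rw [← Finset.sum_range_add_sum_Ico _ hn, map_add]
  have : hasseDeriv u (∑ j ∈ Finset.Ico J n, ∑ l ∈ Finset.range (p ^ j), (X ^ ex p j l : k[X])) = 0 := by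
    rw [map_sum]
    refine Finset.sum_eq_zero fun j hj => ?_
    rw [map_sum]
    refine Finset.sum_eq_zero fun l _ => ?_
    refine hasse_ex_zero j l u hu0 (hu.trans_le ?_)
    exact Nat.pow_le_pow_right hp.out.pos (Finset.mem_Ico.1 hj).1
  rw [this, add_zero]

lemma coeff_term (a u E n : ℕ) (h : E + a ≠ n + u) :
    (X ^ a * hasseDeriv u (X ^ E : k[X])).coeff n = 0 := by
  rw [coeff_X_pow_mul']
  split_ifs with h1
  · rw [hasseDeriv_coeff, coeff_X_pow, if_neg (by omega), mul_zero]
  · rfl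

include hp in
lemma ex_ne (j c j' l' a b u : ℕ) (hc : c < p ^ j) (hl' : l' < p ^ j') (hne : (j', l') ≠ (j, c))
    (ha : a < p ^ (2 * j)) (hb : b < p ^ (2 * j)) (hu : u ≤ p ^ (2 * j)) :
    ex p j' l' + a ≠ p ^ (p ^ (j + 3) + c + 1) + b + u := by
  have hp2 := hp.out.two_le
  have hB := le_big (p := p) j
  have hpos : ∀ m, 0 < p ^ m := fun m => Nat.pow_pos hp.out.pos
  have gap : ∀ i i' : ℕ, i < i' → p ^ (i + 3) + p ^ i < p ^ (i' + 3) := by
    intro i i' hii
    have h1 : p ^ (i + 3 + 1) ≤ p ^ (i' + 3) := Nat.pow_le_pow_right hp.out.pos (by omega)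
    have h2 : p ^ (i + 3 + 1) = p ^ (i + 3) * p := pow_succ _ _
    have h3 : p ^ i < p ^ (i + 3) := Nat.pow_lt_pow_right hp.out.one_lt (by omega)
    nlinarith [hpos (i + 3)]
  set H := p ^ (j + 3) + c + 1 with hH
  set H' := p ^ (j' + 3) + l' + 1 with hH'
  have hne' : H' ≠ H := by
    rcases lt_trichotomy j' j with h | h | h
    · have := gap j' j h; omega
    · subst h
      have : l' ≠ c := fun hh => hne (by rw [hh])
      omega
    · have := gap j j' h; omega
  have hex : ex p j' l' = p ^ H' + p ^ j' * (l' + 1) := rfl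
  rcases lt_or_gt_of_ne hne' with hlt | hgt
  · have hj' : j' ≤ j := by
      by_contra hcon
      have := gap j j' (by omega)
      omega
    have h1 : p ^ H' ≤ p ^ (H - 1) := Nat.pow_le_pow_right hp.out.pos (by omega)
    have h2 : p ^ j' * (l' + 1) ≤ p ^ (2 * j) := by
      calc p ^ j' * (l' + 1) ≤ p ^ j' * p ^ j' := Nat.mul_le_mul_left _ (by omega)
        _ = p ^ (j' + j') := (pow_add _ _ _).symm
        _ ≤ p ^ (2 * j) := Nat.pow_le_pow_right hp.out.pos (by omega)
    have h3 : 2 * p ^ (2 * j) ≤ p ^ (H - 1) := by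
      calc 2 * p ^ (2 * j) ≤ p * p ^ (2 * j) := Nat.mul_le_mul_right _ hp2
        _ = p ^ (2 * j + 1) := by rw [pow_succ]; ring
        _ ≤ p ^ (H - 1) := Nat.pow_le_pow_right hp.out.pos (by omega)
    have h4 : 2 * p ^ (H - 1) ≤ p ^ H := by
      calc 2 * p ^ (H - 1) ≤ p * p ^ (H - 1) := Nat.mul_le_mul_right _ hp2
        _ = p ^ (H - 1 + 1) := by rw [pow_succ]; ring
        _ = p ^ H := by congr 1
    omega
  · have h1 : p ^ (H + 1) ≤ p ^ H' := Nat.pow_le_pow_right hp.out.pos (by omega)
    have h2 : 2 * p ^ H ≤ p ^ (H + 1) := by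
      calc 2 * p ^ H ≤ p * p ^ H := Nat.mul_le_mul_right _ hp2
        _ = p ^ (H + 1) := by rw [pow_succ p H]; ring
    have h3 : 2 * p ^ (2 * j) ≤ p ^ H := by
      calc 2 * p ^ (2 * j) ≤ p * p ^ (2 * j) := Nat.mul_le_mul_right _ hp2
        _ = p ^ (2 * j + 1) := by rw [pow_succ]; ring
        _ ≤ p ^ H := Nat.pow_le_pow_right hp.out.pos (by omega)
    omega

include hp in
lemma coeff_key (j c c' a b : ℕ) (hc : c < p ^ j) (hc' : c' < p ^ j) (hcc : c ≤ c')
    (ha : a < p ^ (2 * j)) (hb : b < p ^ (2 * j)) :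
    (X ^ a * hasseDeriv ((c' + 1) * p ^ j) (ser k p (2 * j + 1))).coeff
      (p ^ (p ^ (j + 3) + c + 1) + b) = if c' = c ∧ a = b then 1 else 0 := by
  have hu : (c' + 1) * p ^ j ≤ p ^ (2 * j) := by
    calc (c' + 1) * p ^ j ≤ p ^ j * p ^ j := Nat.mul_le_mul_right _ (by omega)
      _ = p ^ (2 * j) := by rw [two_mul, pow_add]
  have hB := le_big (p := p) j
  have hmain : (X ^ a * hasseDeriv ((c' + 1) * p ^ j) (ser k p (2 * j + 1))).coeff
      (p ^ (p ^ (j + 3) + c + 1) + b) =
      (X ^ a * hasseDeriv ((c' + 1) * p ^ j) (X ^ ex p j c : k[X])).coeff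
      (p ^ (p ^ (j + 3) + c + 1) + b) := by
    unfold ser
    rw [map_sum, Finset.mul_sum, finsetSum_coeff, Finset.sum_eq_single j]
    · rw [map_sum, Finset.mul_sum, finsetSum_coeff, Finset.sum_eq_single c]
      · intro l hl hlc
        refine coeff_term _ _ _ _ (ex_ne j c j l a b _ hc (Finset.mem_range.1 hl) ?_ ha hb hu)
        intro h; exact hlc (Prod.ext_iff.1 h).2
      · intro h; exact absurd (Finset.mem_range.2 hc) h
    · intro j' _ hj'
      rw [map_sum, Finset.mul_sum, finsetSum_coeff]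
      refine Finset.sum_eq_zero fun l hl => ?_
      refine coeff_term _ _ _ _ (ex_ne j c j' l a b _ hc (Finset.mem_range.1 hl) ?_ ha hb hu)
      intro h; exact hj' (Prod.ext_iff.1 h).1
    · intro h; exact absurd (Finset.mem_range.2 (by omega)) h
  rw [hmain]
  have hlt : (c' + 1) * p ^ j < p ^ (p ^ (j + 3) + c + 1) :=
    lt_of_le_of_lt hu (Nat.pow_lt_pow_right hp.out.one_lt (by omega))
  have hex : (X ^ ex p j c : k[X]) = X ^ (p ^ (p ^ (j + 3) + c + 1)) * X ^ (p ^ j * (c + 1)) := by
    unfold ex; rw [pow_add]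
  rw [hex, hasse_pow_mul _ _ hlt]
  by_cases hcc' : c' = c
  · subst hcc'
    have h1 : hasseDeriv ((c' + 1) * p ^ j) (X ^ (p ^ j * (c' + 1)) : k[X]) = 1 := by
      rw [← monomial_one_right_eq_X_pow, hasseDeriv_monomial, mul_comm (c' + 1) (p ^ j),
        Nat.choose_self, Nat.sub_self]
      simp
    rw [h1, mul_one, ← pow_add, coeff_X_pow]
    by_cases hab : a = b
    · subst hab
      rw [if_pos (by omega), if_pos ⟨rfl, rfl⟩]
    · rw [if_neg (by omega), if_neg (by tauto)]
  · have h1 : hasseDeriv ((c' + 1) * p ^ j) (X ^ (p ^ j * (c + 1)) : k[X]) = 0 := by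
      apply hasseDeriv_eq_zero_of_lt_natDegree
      rw [natDegree_X_pow]
      have : c < c' := by omega
      have hpos : 0 < p ^ j := Nat.pow_pos hp.out.pos
      nlinarith
    rw [h1, mul_zero, mul_zero, coeff_zero, if_neg (by tauto)]

end Lacunary

section Module

variable (k : Type u) [Field k] (p : ℕ)

/-- The class of the lacunary series. -/
noncomputable def ahat : Amb k := Submodule.Quotient.mk (fun n => ser k p n)

/-- Multiplication by a polynomial as an element of `D k`. -/
noncomputable def mulD (g : k[X]) : D k := toD (Algebra.lmul k k[X] g) (lmul_mem g)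

variable {k p}

lemma mulD_smul (g f : k[X]) : mulD k g • f = g * f := rfl

lemma mk_congr {f g : ℕ → k[X]} (n₀ : ℕ) (h : ∀ n, n₀ ≤ n → f n = g n) :
    (Submodule.Quotient.mk f : Amb k) = Submodule.Quotient.mk g := by
  rw [Submodule.Quotient.eq]
  exact ⟨n₀, fun n hn => by rw [Pi.sub_apply, h n hn, sub_self]⟩

variable [hp : Fact p.Prime] [CharP k p]

include hp in
lemma opr_ahat (a u J : ℕ) (hu0 : u ≠ 0) (hu : u < p ^ J) :
    opr k a u • ahat k p = cst k (X ^ a * hasseDeriv u (ser k p J)) := by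
  refine mk_congr J fun n hn => ?_
  show X ^ a * hasseDeriv u (ser k p n) = _
  rw [hasse_ser J u n hu0 hu hn]

include hp in
lemma key_mod (P : Module.End k k[X]) (hP : P ∈ Diff k) : ∀ g : k[X], ∃ f : k[X],
    toD P hP • (mulD k g • ahat k p) = cst k f + mulD k (P g) • ahat k p := by
  unfold Diff at hP
  induction hP using Algebra.adjoin_induction with
  | mem P hP =>
    rcases hP with ⟨h, rfl⟩ | ⟨t, rfl⟩
    · intro g
      refine ⟨0, ?_⟩
      rw [map_zero, zero_add]
      refine mk_congr 0 fun n _ => ?_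
      show h * (g * ser k p n) = (h * g) * ser k p n
      rw [mul_assoc]
    · intro g
      rcases Nat.eq_zero_or_pos t with rfl | ht
      · refine ⟨0, ?_⟩
        rw [map_zero, zero_add]
        refine mk_congr 0 fun n _ => ?_
        show hasseDeriv 0 (g * ser k p n) = hasseDeriv 0 g * ser k p n
        rw [hasseDeriv_zero', hasseDeriv_zero']
      · refine ⟨∑ ij ∈ (Finset.HasAntidiagonal.antidiagonal t).erase (t, 0),
          hasseDeriv ij.1 g * hasseDeriv ij.2 (ser k p t), ?_⟩
        refine mk_congr t fun n hn => ?_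
        show hasseDeriv t (g * ser k p n) =
          (∑ ij ∈ (Finset.HasAntidiagonal.antidiagonal t).erase (t, 0),
            hasseDeriv ij.1 g * hasseDeriv ij.2 (ser k p t)) + hasseDeriv t g * ser k p n
        rw [hasseDeriv_mul,
          ← Finset.sum_erase_add _ _ (Finset.HasAntidiagonal.mem_antidiagonal.2
            (show (t, 0).1 + (t, 0).2 = t by simp)), hasseDeriv_zero']
        congr 1
        refine Finset.sum_congr rfl fun ij hij => ?_
        rw [Finset.mem_erase, Finset.HasAntidiagonal.mem_antidiagonal] at hij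
        have h2 : ij.2 ≠ 0 := by
          intro h
          exact hij.1 (Prod.ext_iff.2 ⟨by simp; omega, h⟩)
        have h3 : ij.2 < p ^ t := lt_of_le_of_lt (by omega : ij.2 ≤ t)
          (Nat.lt_pow_self hp.out.one_lt)
        rw [hasse_ser t ij.2 n h2 h3 hn]
  | algebraMap r =>
    intro g
    refine ⟨0, ?_⟩
    rw [map_zero, zero_add]
    refine mk_congr 0 fun n _ => ?_
    show r • (g * ser k p n) = (r • g) * ser k p n
    rw [smul_mul_assoc]
  | add P Q hP hQ ihP ihQ =>
    intro g
    obtain ⟨f1, h1⟩ := ihP g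
    obtain ⟨f2, h2⟩ := ihQ g
    refine ⟨f1 + f2, ?_⟩
    have h3 : toD (P + Q) (add_mem hP hQ) = toD P hP + toD Q hQ := rfl
    have h4 : mulD k ((P + Q) g) = mulD k (P g) + mulD k (Q g) := by
      apply Subtype.ext
      show Algebra.lmul k k[X] ((P + Q) g) = _
      rw [LinearMap.add_apply, map_add]; rfl
    rw [h3, add_smul, h1, h2, map_add, h4, add_smul]
    abel
  | mul P Q hP hQ ihP ihQ =>
    intro g
    obtain ⟨f2, h2⟩ := ihQ g
    obtain ⟨f1, h1⟩ := ihP (Q g)
    refine ⟨P f2 + f1, ?_⟩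
    have h3 : toD (P * Q) (mul_mem hP hQ) = toD P hP * toD Q hQ := rfl
    have h4 : toD P hP • cst k f2 = cst k (P f2) := rfl
    rw [h3, mul_smul, h2, smul_add, h1, h4, map_add, add_assoc]
    rfl

variable (k p)

/-- The extension. -/
noncomputable def Ext : Submodule (D k) (Amb k) where
  carrier := {x | ∃ f g : k[X], x = cst k f + mulD k g • ahat k p}
  zero_mem' := ⟨0, 0, by
    have : mulD k 0 = 0 := by
      apply Subtype.ext
      show Algebra.lmul k k[X] 0 = 0
      rw [map_zero]
    rw [this, map_zero, zero_smul, add_zero]⟩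
  add_mem' := by
    rintro _ _ ⟨f, g, rfl⟩ ⟨f', g', rfl⟩
    refine ⟨f + f', g + g', ?_⟩
    have : mulD k (g + g') = mulD k g + mulD k g' := by
      apply Subtype.ext
      show Algebra.lmul k k[X] (g + g') = _
      rw [map_add]; rfl
    rw [this, map_add, add_smul]
    abel
  smul_mem' := by
    rintro ⟨P, hP⟩ _ ⟨f, g, rfl⟩
    obtain ⟨f', h'⟩ := key_mod (p := p) P hP g
    refine ⟨P f + f', P g, ?_⟩
    have h4 : toD P hP • cst k f = cst k (P f) := rfl
    show toD P hP • (cst k f + mulD k g • ahat k p) = _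
    rw [smul_add, h', h4, map_add, add_assoc]

lemma cst_mem_Ext (f : k[X]) : cst k f ∈ Ext k p := ⟨f, 0, by
  have : mulD k 0 = 0 := by
    apply Subtype.ext
    show Algebra.lmul k k[X] 0 = 0
    rw [map_zero]
  rw [this, zero_smul, add_zero]⟩

lemma smul_ahat_mem_Ext (g : k[X]) : mulD k g • ahat k p ∈ Ext k p := ⟨0, g, by
  rw [map_zero, zero_add]⟩

/-- The submodule of constant sequences. -/
noncomputable def Sub : Submodule (D k) (Ext k p) :=
  (LinearMap.range (cst k)).comap (Ext k p).subtype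

lemma holonomic_Sub : Holonomic k (Sub k p) := by
  let f : k[X] →ₗ[D k] Sub k p :=
    { toFun := fun f => ⟨⟨cst k f, cst_mem_Ext k p f⟩, ⟨f, rfl⟩⟩
      map_add' := fun _ _ => rfl
      map_smul' := fun _ _ => rfl }
  refine Holonomic.of_surjective f ?_ holonomic_poly
  rintro ⟨⟨x, hx⟩, ⟨g, hg⟩⟩
  refine ⟨g, ?_⟩
  apply Subtype.ext
  apply Subtype.ext
  exact hg

lemma holonomic_Quot : Holonomic k (Ext k p ⧸ Sub k p) := by
  let f : k[X] →ₗ[D k] (Ext k p ⧸ Sub k p) :=
    { toFun := fun g => Submodule.Quotient.mk ⟨mulD k g • ahat k p, smul_ahat_mem_Ext k p g⟩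
      map_add' := by
        intro g g'
        have h1 : mulD k (g + g') = mulD k g + mulD k g' := by
          apply Subtype.ext
          show Algebra.lmul k k[X] (g + g') = _
          rw [map_add]; rfl
        rw [← Submodule.Quotient.mk_add]
        congr 1
        apply Subtype.ext
        show mulD k (g + g') • ahat k p = mulD k g • ahat k p + mulD k g' • ahat k p
        rw [h1, add_smul]
      map_smul' := by
        rintro ⟨P, hP⟩ g
        obtain ⟨f', h'⟩ := key_mod (p := p) P hP g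
        rw [RingHom.id_apply, ← Submodule.Quotient.mk_smul, Submodule.Quotient.eq]
        refine ⟨-f', ?_⟩
        show cst k (-f') = mulD k (P g) • ahat k p - toD P hP • (mulD k g • ahat k p)
        rw [h', map_neg]
        abel }
  refine Holonomic.of_surjective f ?_ holonomic_poly
  intro y
  obtain ⟨⟨x, f', g, rfl⟩, rfl⟩ := Submodule.Quotient.mk_surjective _ y
  refine ⟨g, ?_⟩
  show (Submodule.Quotient.mk _ : Ext k p ⧸ Sub k p) = Submodule.Quotient.mk _
  rw [Submodule.Quotient.eq]
  refine ⟨-f', ?_⟩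
  show cst k (-f') = mulD k g • ahat k p - (cst k f' + mulD k g • ahat k p)
  rw [map_neg]
  abel

lemma mulD_one : mulD k 1 = 1 := by
  apply Subtype.ext
  show Algebra.lmul k k[X] 1 = 1
  rw [map_one]

/-- The polynomials obtained by applying the operators to the lacunary series. -/
noncomputable def pol (j : ℕ) (x : Fin (p ^ (2 * j)) × Fin (p ^ j)) : k[X] :=
  X ^ (x.1 : ℕ) * hasseDeriv (((x.2 : ℕ) + 1) * p ^ j) (ser k p (2 * j + 1))

lemma pol_indep (j : ℕ) : LinearIndependent k (pol k p j) := by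
  rw [Fintype.linearIndependent_iff]
  intro g hg
  have main : ∀ c : ℕ, ∀ hc : c < p ^ j, ∀ b : Fin (p ^ (2 * j)), g (b, ⟨c, hc⟩) = 0 := by
    intro c
    induction c using Nat.strong_induction_on with
    | _ c ih =>
      intro hc b
      have h1 := congrArg (fun q : k[X] => q.coeff (p ^ (p ^ (j + 3) + c + 1) + (b : ℕ))) hg
      simp only [finsetSum_coeff, coeff_smul, coeff_zero, smul_eq_mul] at h1
      rw [Finset.sum_eq_single (b, (⟨c, hc⟩ : Fin (p ^ j)))] at h1
      · unfold pol at h1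
        rw [coeff_key j c c b b hc hc le_rfl b.2 b.2, if_pos ⟨rfl, rfl⟩, mul_one] at h1
        exact h1
      · rintro ⟨a, c'⟩ _ hne
        rcases lt_or_ge (c' : ℕ) c with hlt | hge
        · have := ih c' hlt c'.2 a
          rw [show ((a, c') : Fin (p ^ (2 * j)) × Fin (p ^ j)) = (a, ⟨(c' : ℕ), c'.2⟩) from rfl,
            this, zero_mul]
        · unfold pol
          rw [coeff_key j c c' a b hc c'.2 hge a.2 b.2, if_neg, mul_zero]
          rintro ⟨h2, h3⟩
          exact hne (Prod.ext_iff.2 ⟨Fin.ext h3, Fin.ext h2⟩)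
      · intro h; exact absurd (Finset.mem_univ _) h
  rintro ⟨b, c⟩
  exact main c c.2 b

lemma not_holonomic_Ext : ¬ Holonomic k (Ext k p) := by
  rintro ⟨Fil, C, hmono, hcov, hact, hdim⟩
  set A : Ext k p := ⟨mulD k 1 • ahat k p, smul_ahat_mem_Ext k p 1⟩ with hA
  obtain ⟨i₀, hi₀⟩ := hcov A
  obtain ⟨j, hj⟩ : ∃ j, j = C * (i₀ + 2) + 1 := ⟨_, rfl⟩
  obtain ⟨n, hn⟩ : ∃ n, n = i₀ + 2 * p ^ (2 * j) := ⟨_, rfl⟩
  have hu : ∀ c : Fin (p ^ j), ((c : ℕ) + 1) * p ^ j ≤ p ^ (2 * j) := by
    intro c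
    calc ((c : ℕ) + 1) * p ^ j ≤ p ^ j * p ^ j := Nat.mul_le_mul_right _ c.2
      _ = p ^ (2 * j) := by rw [two_mul, pow_add]
  have hmem : ∀ x : Fin (p ^ (2 * j)) × Fin (p ^ j),
      opr k (x.1 : ℕ) (((x.2 : ℕ) + 1) * p ^ j) • A ∈ Fil n := by
    intro x
    have h1 := hact ((x.1 : ℕ) + ((x.2 : ℕ) + 1) * p ^ j) i₀
      (opr k (x.1 : ℕ) (((x.2 : ℕ) + 1) * p ^ j))
      (Submodule.subset_span ⟨_, _, le_rfl, rfl⟩) A hi₀
    refine hmono ?_ h1
    have := hu x.2
    have := x.1.2
    omega
  let w : Fin (p ^ (2 * j)) × Fin (p ^ j) → Fil n := fun x => ⟨_, hmem x⟩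
  have hpol : ∀ x, ((w x : Ext k p) : Amb k) = cst k (pol k p j x) := by
    intro x
    show opr k (x.1 : ℕ) (((x.2 : ℕ) + 1) * p ^ j) • (mulD k 1 • ahat k p) = _
    rw [mulD_one, one_smul]
    refine opr_ahat _ _ (2 * j + 1) ?_ ?_
    · have := Nat.pow_pos (n := j) hp.out.pos
      positivity
    · exact (hu x.2).trans_lt (Nat.pow_lt_pow_right hp.out.one_lt (by omega))
  have hw : LinearIndependent k w := by
    let f : Fil n →ₗ[k] Amb k :=
      ((Ext k p).subtype.restrictScalars k).comp (Fil n).subtype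
    refine LinearIndependent.of_comp f ?_
    have h1 : f ∘ w = ((cst k).restrictScalars k) ∘ pol k p j := funext hpol
    rw [h1]
    exact (pol_indep k p j).map' _ (LinearMap.ker_eq_bot.2 (cst_injective k))
  have hn1 : 1 ≤ n := by
    have := Nat.pow_pos (n := 2 * j) hp.out.pos
    omega
  have hcard := hw.cardinal_lift_le_rank.trans (Cardinal.lift_le.2 (hdim n hn1))
  rw [Cardinal.mk_fintype, Fintype.card_prod, Fintype.card_fin, Fintype.card_fin,
    Cardinal.lift_natCast, Cardinal.lift_natCast] at hcard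
  have hcard' : p ^ (2 * j) * p ^ j ≤ C * n := by exact_mod_cast hcard
  have hpos : 0 < p ^ (2 * j) := Nat.pow_pos hp.out.pos
  have h7 : C * n ≤ p ^ (2 * j) * (C * (i₀ + 2)) := by
    rw [hn]
    nlinarith [Nat.zero_le (C * i₀), Nat.zero_le C]
  have h8 : p ^ j ≤ C * (i₀ + 2) := Nat.le_of_mul_le_mul_left (hcard'.trans h7) hpos
  have h9 : j < p ^ j := Nat.lt_pow_self hp.out.one_lt
  omega

end Module

/-- **Theorem.** For every prime `p` and every field `k` of characteristic `p` there are a module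
`M` over the ring of differential operators of `k[x]` and a submodule `M'` such that `M'` and
`M ⧸ M'` are holonomic and `M` is not. -/
theorem result (p : ℕ) [Fact p.Prime] (k : Type u) [Field k] [CharP k p] :
    ∃ (M : Type u) (_ : AddCommGroup M) (_ : Module k M) (_ : Module (D k) M)
      (_ : IsScalarTower k (D k) M) (M' : Submodule (D k) M),
      Holonomic k M' ∧ Holonomic k (M ⧸ M') ∧ ¬ Holonomic k M :=
  ⟨Ext k p, inferInstance, inferInstance, inferInstance, inferInstance, Sub k p,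
    holonomic_Sub k p, holonomic_Quot k p, not_holonomic_Ext k p⟩

end Pool.Agent.Results.MP_66748c_al.NonHolonomicExtension
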